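import Pool.Agent.W759.FD.Fin
import Pool.Agent.W7.FD.P0
import Pool.Agent.W300.FD.P1
import Pool.Agent.W371.FD.P2
import Pool.Agent.W397.FD.P3
import Pool.Agent.W881.FD.P4
import Pool.Agent.W358.FD.P5
import Pool.Agent.W750.FD.P6abd
import Pool.Agent.W563.FD.P6c
import Pool.Agent.W371.FD.P7
import Pool.Agent.W753.FD.P8a
import Pool.Agent.W561.FD.P8b
import Pool.Agent.W371.FD.P9

namespace Pool.Agent.W759.FD

open MeasureTheory ProbabilityTheory Set Filter
open scoped ENNReal Topology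

universe u

theorem p6a : P6a := Pool.Agent.W750.FD.t6a Pool.Agent.W7.FD.t0

theorem p6c : P6c := Pool.Agent.W563.FD.t6c Pool.Agent.W7.FD.t0

theorem p6d : P6d := Pool.Agent.W750.FD.t6d Pool.Agent.W7.FD.t0

theorem muX_prob : IsProbabilityMeasure muX := by
  have : ∀ k : K, IsProbabilityMeasure (house (k.1.1 + 1)) := fun k => p6a _ (Nat.succ_pos _)
  have : IsProbabilityMeasure PW := by unfold PW; infer_instance
  have hX : Measurable X := by
    unfold X
    exact measurable_pi_lambda _ (fun a => measurable_pi_lambda _ (fun q =>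
      (measurable_pi_apply _).comp (measurable_pi_apply _)))
  exact Measure.isProbabilityMeasure_map hX.aemeasurable

theorem muX_stat : muX.map (fun x i => x (i + 1)) = muX := Pool.Agent.W753.FD.t8a p6a

theorem muX_dep : ∀ A B : Set ℤ, (∀ i ∈ A, ∀ j ∈ B, 1 < |i - j|) →
    IndepFun (rs (T := S0) A) (rs (T := S0) B) muX :=
  Pool.Agent.W561.FD.t8b p6a p6c Pool.Agent.W371.FD.t7

theorem p10 : P10.{u} :=
  t10 Pool.Agent.W300.FD.t1 (Pool.Agent.W397.FDP3.t3 Pool.Agent.W371.FD.t2)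
    Pool.Agent.W881.FD.P4.t4 Pool.Agent.W358.FD.t5
    (Pool.Agent.W371.FD.t9a p6a Pool.Agent.W750.FD.t6b)
    (Pool.Agent.W371.FD.t9b p6a p6d)

end Pool.Agent.W759.FD
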