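import Pool.Agent.W759.FD.Defs

namespace Pool.Agent.W759.FD

open MeasureTheory ProbabilityTheory Set Filter
open scoped ENNReal Topology

universe u

theorem isSign_sg (b : Bool) : IsSign (sg b) := by
  cases b <;> simp [sg, IsSign]

theorem IsSign.mul {x y : ℝ} (hx : IsSign x) (hy : IsSign y) : IsSign (x * y) := by
  rcases hx with rfl | rfl <;> rcases hy with rfl | rfl <;> simp [IsSign]

theorem isSign_prod (s : Finset ℕ) (F : ℕ → ℝ) (hF : ∀ j ∈ s, IsSign (F j)) :
    IsSign (∏ j ∈ s, F j) := by
  classical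
  induction s using Finset.induction_on with
  | empty => simp [IsSign]
  | insert a s ha ih =>
    rw [Finset.prod_insert ha]
    exact (hF a (by simp)).mul (ih (fun j hj => hF j (by simp [hj])))

theorem isSign_blk (m k : ℕ) (h : ℕ → Bool) : IsSign (blk m k h) :=
  isSign_prod _ _ (fun _ _ => isSign_sg _)

theorem measurable_sg : Measurable sg := measurable_from_top

theorem measurable_blk (m k : ℕ) : Measurable (blk m k) := by
  unfold blk
  exact Finset.measurable_prod _ (fun j _ => measurable_sg.comp (measurable_pi_apply j))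

theorem measurable_rd (n c : ℕ) : Measurable (rd n c) := by
  unfold rd
  exact measurable_pi_lambda _ (fun j => (measurable_pi_apply _).comp (measurable_pi_apply _))

theorem measurable_chsh {Ω : Type*} [MeasurableSpace Ω] {F G : Ω → ℝ} (hF : Measurable F)
    (hG : Measurable G) : Measurable (fun ω => chsh (F ω) (G ω)) := by
  unfold chsh
  exact (((measurable_const.add hF).add hG).sub (hF.mul hG)).div_const _

theorem measurableSet_hs (m : ℕ) : MeasurableSet (hs m) :=
  measurableSet_eq_fun ((measurable_blk m 1).mul (measurable_blk m 2))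
    (measurable_chsh (measurable_blk m 0) (measurable_blk m 3))

theorem measurable_sh {T : Type*} [MeasurableSpace T] (a : ℤ) :
    Measurable (sh (T := T) a) := by
  unfold sh
  exact measurable_pi_lambda _ (fun i => measurable_pi_apply _)

theorem measurable_glue {T : Type*} [MeasurableSpace T] (p q : ℤ) :
    Measurable (glue (T := T) p q) := by
  unfold glue
  refine measurable_pi_lambda _ (fun i => ?_)
  split_ifs
  · exact (measurable_pi_apply i).comp measurable_fst
  · exact (measurable_pi_apply i).comp (measurable_fst.comp measurable_snd)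
  · exact (measurable_pi_apply i).comp (measurable_snd.comp measurable_snd)

/-- Block sign number `k` of copy `c`, read off the process. -/
noncomputable def chi (n k c : ℕ) (x : ℤ → S0) : ℝ := blk (n + 1) k (rd n c x)

theorem measurable_chi (n k c : ℕ) : Measurable (chi n k c) :=
  (measurable_blk _ _).comp (measurable_rd _ _)

theorem isSign_chi (n k c : ℕ) (x : ℤ → S0) : IsSign (chi n k c x) := isSign_blk _ _ _

theorem chi_congr (n k c : ℕ) (x x' : ℤ → S0)
    (h : ∀ j : ℕ, k * (n + 1) ≤ j → j < (k + 1) * (n + 1) → x (j : ℤ) = x' (j : ℤ)) :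
    chi n k c x = chi n k c x' := by
  unfold chi blk rd
  refine Finset.prod_congr rfl (fun j hj => ?_)
  rw [Finset.mem_Ico] at hj
  rw [h j hj.1 hj.2]

theorem t10 (h1 : P1.{u}) (h3 : P3.{u}) (h4 : P4.{u}) (h5 : P5.{u})
    (h9a : ∀ n c : ℕ, ∀ᵐ x ∂muX, rd n c x ∈ hs (n + 1))
    (h9b : ∀ n c c' : ℕ, c ≠ c' →
      ∫ x, blk (n + 1) 0 (rd n c x) * blk (n + 1) 0 (rd n c' x) ∂muX = 0 ∧
      ∫ x, blk (n + 1) 3 (rd n c x) * blk (n + 1) 3 (rd n c' x) ∂muX = 0) : P10.{u} := by
  intro T _ lam _ r f g hf hg hgr hmap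
  by_contra hcon
  rw [not_le] at hcon
  set B : Set (ℤ → T) := {y | f y ≠ g y} with hB
  have hBm : MeasurableSet B := (measurableSet_eq_fun hf hg).compl
  have hC := h5 T lam B (8 * (r + 1)) hBm hcon
  set C : Set (ℤ → T) := {y | ∀ a : ℕ, a < 8 * (r + 1) → sh (a : ℤ) y ∉ B} with hCdef
  set n : ℕ := 2 * r + 1 with hn
  set Φ : (ℤ → T) → (ℤ → S0) := fun y a => f (sh a y) with hΦ
  set G : (ℤ → T) → (ℤ → S0) := fun y a => g (sh a y) with hG
  have hΦm : Measurable Φ := measurable_pi_lambda _ (fun a => hf.comp (measurable_sh a))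
  have hGm : Measurable G := measurable_pi_lambda _ (fun a => hg.comp (measurable_sh a))
  -- the good set
  set Z : Set (ℤ → T) := {y | ∀ c : ℕ, rd n c (Φ y) ∈ hs (n + 1)} with hZ
  have hZm : MeasurableSet Z := by
    have : Z = ⋂ c : ℕ, (fun y => rd n c (Φ y)) ⁻¹' (hs (n + 1)) := by
      ext y; simp [hZ]
    rw [this]
    exact MeasurableSet.iInter (fun c => ((measurable_rd n c).comp hΦm) (measurableSet_hs _))
  have hZ1 : ∀ᵐ y ∂(iid lam), y ∈ Z := by
    rw [hZ]
    simp only [mem_ofPred_eq]
    rw [ae_all_iff]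
    intro c
    have := h9a n c
    rw [← hmap] at this
    exact ae_of_ae_map hΦm.aemeasurable this
  have hCm : MeasurableSet C := by
    have : C = ⋂ a ∈ Finset.range (8 * (r + 1)), (sh (a : ℤ)) ⁻¹' Bᶜ := by
      ext y; simp [hCdef]
    rw [this]
    exact Finset.measurableSet_biInter _ (fun a _ => (measurable_sh _) hBm.compl)
  set C' : Set (ℤ → T) := C ∩ Z with hC'
  have hC'm : MeasurableSet C' := hCm.inter hZm
  have hC'pos : iid lam C' ≠ 0 := by
    have : iid lam C' = iid lam C := by
      refine measure_congr ?_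
      filter_upwards [hZ1] with y hy
      apply propext
      show y ∈ C ∩ Z ↔ y ∈ C
      simp [hy]
    rw [this]; exact hC.ne'
  apply hC'pos
  set p : ℤ := ((n + 1 : ℕ) : ℤ) + r with hp
  set q : ℤ := 2 * ((n + 1 : ℕ) : ℤ) + r with hq
  have hpq : p ≤ q := by rw [hp, hq]; omega
  have hglue := h4 T lam p q hpq
  rw [← hglue, Measure.map_apply (measurable_glue p q) hC'm]
  -- congruence for `G`
  have hGc : ∀ (y y' : ℤ → T) (a : ℤ), (∀ i : ℤ, a - r ≤ i → i ≤ a + r → y i = y' i) →
      G y a = G y' a := by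
    intro y y' a h
    refine hgr _ _ (fun i hi => ?_)
    rw [abs_le] at hi
    exact h (i + a) (by linarith [hi.1]) (by linarith [hi.2])
  have hCG : ∀ (y : ℤ → T), y ∈ C → ∀ k c : ℕ, k < 4 → chi n k c (Φ y) = chi n k c (G y) := by
    intro y hy k c hk
    refine chi_congr n k c _ _ (fun j hj1 hj2 => ?_)
    have hj3 : j < 8 * (r + 1) := by
      have : (k + 1) * (n + 1) ≤ 4 * (n + 1) := Nat.mul_le_mul_right _ (by omega)
      rw [hn] at this hj2
      omega
    have := hy j hj3
    simpa [hB] using this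
  have hc0 : ∀ (w : (ℤ → T) × (ℤ → T) × (ℤ → T)) (c : ℕ),
      chi n 0 c (G (glue p q w)) = chi n 0 c (G w.1) := by
    intro w c
    refine chi_congr n 0 c _ _ (fun j hj1 hj2 => ?_)
    refine hGc _ _ _ (fun i hi1 hi2 => ?_)
    have : i < p := by rw [hp]; push_cast; push_cast at hj2; zify at hj2; linarith
    simp [glue, this]
  have hc1 : ∀ (w : (ℤ → T) × (ℤ → T) × (ℤ → T)) (c : ℕ),
      chi n 1 c (G (glue p q w)) = chi n 1 c (G (glue p q (w.1, w.2.1, w.2.1))) := by
    intro w c
    refine chi_congr n 1 c _ _ (fun j hj1 hj2 => ?_)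
    refine hGc _ _ _ (fun i hi1 hi2 => ?_)
    have : i < q := by rw [hq]; push_cast; push_cast at hj2; zify at hj2; linarith
    simp [glue, this]
  have hc2 : ∀ (w : (ℤ → T) × (ℤ → T) × (ℤ → T)) (c : ℕ),
      chi n 2 c (G (glue p q w)) = chi n 2 c (G (glue p q (w.2.1, w.2.1, w.2.2))) := by
    intro w c
    refine chi_congr n 2 c _ _ (fun j hj1 hj2 => ?_)
    refine hGc _ _ _ (fun i hi1 hi2 => ?_)
    have : ¬ i < p := by
      rw [hp, hn, not_lt]; push_cast; rw [hn] at hj1; zify at hj1; linarith
    simp [glue, this]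
  have hc3 : ∀ (w : (ℤ → T) × (ℤ → T) × (ℤ → T)) (c : ℕ),
      chi n 3 c (G (glue p q w)) = chi n 3 c (G w.2.2) := by
    intro w c
    refine chi_congr n 3 c _ _ (fun j hj1 hj2 => ?_)
    refine hGc _ _ _ (fun i hi1 hi2 => ?_)
    have h2 : ¬ i < q := by
      rw [hq, hn, not_lt]; push_cast; rw [hn] at hj1; zify at hj1; linarith
    have h3 : ¬ i < p := by
      rw [not_lt] at h2 ⊢; linarith
    simp [glue, h2, h3]
  -- weak convergence on the triple space
  have hweak : ∀ k : ℕ, (k = 0 ∨ k = 3) →
      ∀ ζ : (ℤ → T) × (ℤ → T) × (ℤ → T) → ℝ, Measurable ζ → (∀ w, |ζ w| ≤ 1) →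
      Tendsto (fun c => ∫ w in (glue p q) ⁻¹' C', ζ w * chi n k c (G (glue p q w))
        ∂((iid lam).prod ((iid lam).prod (iid lam)))) atTop (𝓝 0) := by
    intro k hk ζ hζ hζ1
    have hPm : IsProbabilityMeasure (iid lam) := by unfold iid; infer_instance
    have hψm : MeasurableSet ((glue (T := T) p q) ⁻¹' C') := measurable_glue p q hC'm
    have key := h1 ((ℤ → T) × (ℤ → T) × (ℤ → T)) ((iid lam).prod ((iid lam).prod (iid lam)))
      (fun c w => chi n k c (Φ (glue p q w)))
      (fun c => (measurable_chi n k c).comp (hΦm.comp (measurable_glue p q)))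
      (fun c w => isSign_chi _ _ _ _)
      (by
        intro c c' hcc
        have e1 : ∫ w, chi n k c (Φ (glue p q w)) * chi n k c' (Φ (glue p q w))
            ∂((iid lam).prod ((iid lam).prod (iid lam))) =
            ∫ y, chi n k c (Φ y) * chi n k c' (Φ y) ∂(iid lam) := by
          conv_rhs => rw [← hglue]
          rw [integral_map (measurable_glue p q).aemeasurable]
          exact (((measurable_chi n k c).comp hΦm).mul
            ((measurable_chi n k c').comp hΦm)).aestronglyMeasurable
        have e2 : ∫ y, chi n k c (Φ y) * chi n k c' (Φ y) ∂(iid lam) =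
            ∫ x, chi n k c x * chi n k c' x ∂muX := by
          rw [← hmap, integral_map hΦm.aemeasurable]
          exact ((measurable_chi n k c).mul (measurable_chi n k c')).aestronglyMeasurable
        rw [e1, e2]
        rcases hk with rfl | rfl
        · exact (h9b n c c' hcc).1
        · exact (h9b n c c' hcc).2)
      (((glue p q) ⁻¹' C').indicator ζ) (hζ.indicator hψm)
      (by
        intro w
        by_cases hw : w ∈ (glue p q) ⁻¹' C'
        · rw [indicator_of_mem hw]; exact hζ1 w
        · rw [indicator_of_notMem hw]; simp)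
    refine key.congr (fun c => ?_)
    rw [← integral_indicator hψm]
    refine integral_congr_ae (ae_of_all _ (fun w => ?_))
    by_cases hw : w ∈ (glue p q) ⁻¹' C'
    · simp only [indicator_of_mem hw]
      rw [hCG (glue p q w) hw.1 k c (by omega)]
    · simp only [indicator_of_notMem hw, zero_mul]
  have hPm : IsProbabilityMeasure (iid lam) := by unfold iid; infer_instance
  refine h3 (ℤ → T) (ℤ → T) (ℤ → T) (iid lam) (iid lam) (iid lam)
    (fun c l => chi n 0 c (G l)) (fun c r => chi n 3 c (G r))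
    (fun c l z => chi n 1 c (G (glue p q (l, z, z))))
    (fun c z r => chi n 2 c (G (glue p q (z, z, r))))
    ((glue p q) ⁻¹' C')
    (fun c => (measurable_chi n 0 c).comp hGm) (fun c => (measurable_chi n 3 c).comp hGm)
    (fun c l => isSign_chi _ _ _ _) (fun c l => isSign_chi _ _ _ _)
    (fun c l z => isSign_chi _ _ _ _) (fun c l z => isSign_chi _ _ _ _)
    (measurable_glue p q hC'm) ?_ ?_ ?_
  · intro c l z r' hw
    have hy := hw
    have hyC : glue p q (l, z, r') ∈ C := hw.1
    have hyZ : glue p q (l, z, r') ∈ Z := hw.2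
    have e := hyZ c
    simp only [hs, mem_ofPred_eq] at e
    have e1 : chi n 1 c (Φ (glue p q (l, z, r'))) * chi n 2 c (Φ (glue p q (l, z, r'))) =
      chsh (chi n 0 c (Φ (glue p q (l, z, r')))) (chi n 3 c (Φ (glue p q (l, z, r')))) := e
    rw [hCG _ hyC 1 c (by norm_num), hCG _ hyC 2 c (by norm_num), hCG _ hyC 0 c (by norm_num),
      hCG _ hyC 3 c (by norm_num), hc0, hc1, hc2, hc3] at e1
    exact e1
  · intro ζ hζ hζ1
    have := hweak 0 (Or.inl rfl) ζ hζ hζ1
    refine this.congr (fun c => ?_)
    refine integral_congr_ae (ae_of_all _ (fun w => ?_))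
    simp only [hc0]
  · intro ζ hζ hζ1
    have := hweak 3 (Or.inr rfl) ζ hζ hζ1
    refine this.congr (fun c => ?_)
    refine integral_congr_ae (ae_of_all _ (fun w => ?_))
    simp only [hc3]

end Pool.Agent.W759.FD
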