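import Mathlib

namespace Pool.Agent.W759.FD

open MeasureTheory ProbabilityTheory Set Filter
open scoped ENNReal Topology

universe u

/-- The fair coin on `Bool`. -/
noncomputable def coin : Measure Bool :=
  (2⁻¹ : ℝ≥0∞) • Measure.dirac true + (2⁻¹ : ℝ≥0∞) • Measure.dirac false

instance : IsProbabilityMeasure coin :=
  ⟨by simp [coin, ENNReal.inv_two_add_inv_two]⟩

/-- Independent fair coins indexed by `ℕ`. -/
noncomputable def coins : Measure (ℕ → Bool) := Measure.infinitePi (fun _ : ℕ => coin)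

instance : IsProbabilityMeasure coins := by unfold coins; infer_instance

/-- The sign of a bit. -/
noncomputable def sg (b : Bool) : ℝ := if b then -1 else 1

/-- The sign of the block number `k` (sites `k m ≤ j < (k + 1) m`). -/
noncomputable def blk (m k : ℕ) (h : ℕ → Bool) : ℝ :=
  ∏ j ∈ Finset.Ico (k * m) ((k + 1) * m), sg (h j)

/-- The function which is `1` unless `x = y = -1` (for signs `x`, `y`); then it is `-1`. -/
noncomputable def chsh (x y : ℝ) : ℝ := (1 + x + y - x * y) / 2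

/-- Admissible houses of scale `m`. -/
def hs (m : ℕ) : Set (ℕ → Bool) :=
  {h | blk m 1 h * blk m 2 h = chsh (blk m 0 h) (blk m 3 h)}

/-- The law of a house of scale `m`: fair coins conditioned on `hs m`. -/
noncomputable def house (m : ℕ) : Measure (ℕ → Bool) :=
  coins.withDensity (fun h =>
    ENNReal.ofReal (1 + blk m 1 h * blk m 2 h * chsh (blk m 0 h) (blk m 3 h)))

/-- The restriction to a set of coordinates. -/
def rs {ι : Type*} {T : Type*} (A : Set ι) (h : ι → T) : A → T := fun j => h j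

/-- The index set of the houses: (scale, copy) and starting point. -/
abbrev K : Type := (ℕ × ℕ) × ℤ

/-- The state space of the process. -/
abbrev S0 : Type := (ℕ × ℕ) × ℕ → Bool

/-- All houses are independent. -/
noncomputable def PW : Measure (K → ℕ → Bool) :=
  Measure.infinitePi (fun k : K => house (k.1.1 + 1))

/-- The process built from the houses: at site `a` one sees for every scale and copy, and every
`j`, the `j`-th letter of the house started at `a - j`. -/
def X (ω : K → ℕ → Bool) : ℤ → S0 := fun a q => ω (q.1, a - q.2) q.2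

/-- The law of the process. -/
noncomputable def muX : Measure (ℤ → S0) := PW.map X

/-- The house of scale `n + 1` and copy `c` started at `0`, read off the process. -/
def rd (n c : ℕ) (x : ℤ → S0) : ℕ → Bool := fun j => x (j : ℤ) ((n, c), j)

/-- The shift by `a`. -/
def sh {T : Type*} (a : ℤ) (y : ℤ → T) : ℤ → T := fun i => y (i + a)

/-- The iid process with one-site law `lam`. -/
noncomputable def iid {T : Type*} [MeasurableSpace T] (lam : Measure T) : Measure (ℤ → T) :=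
  Measure.infinitePi (fun _ : ℤ => lam)

/-- Glue three configurations along `i < p`, `p ≤ i < q`, `q ≤ i`. -/
def glue {T : Type*} (p q : ℤ) (w : (ℤ → T) × (ℤ → T) × (ℤ → T)) : ℤ → T :=
  fun i => if i < p then w.1 i else if i < q then w.2.1 i else w.2.2 i

/-- A sign. -/
def IsSign (x : ℝ) : Prop := x = 1 ∨ x = -1

/-- Flipping one coordinate preserves the fair coins. -/
def P0 : Prop := ∀ j : ℕ, coins.map (fun h => Function.update h j (!(h j))) = coins

/-- Bessel. -/
def P1 : Prop :=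
  ∀ (Ω : Type u) [MeasurableSpace Ω] (P : Measure Ω) [IsProbabilityMeasure P] (x : ℕ → Ω → ℝ),
    (∀ c, Measurable (x c)) → (∀ c ω, IsSign (x c ω)) →
    (∀ c c', c ≠ c' → ∫ ω, x c ω * x c' ω ∂P = 0) →
    ∀ ζ : Ω → ℝ, Measurable ζ → (∀ ω, |ζ ω| ≤ 1) →
      Tendsto (fun c => ∫ ω, ζ ω * x c ω ∂P) atTop (𝓝 0)

/-- The two-space lemma. -/
def P2 : Prop :=
  ∀ (L R : Type u) [MeasurableSpace L] [MeasurableSpace R] (μ : Measure L) (ν : Measure R)
    [IsProbabilityMeasure μ] [IsProbabilityMeasure ν]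
    (κ : L → ℝ) (κ' : R → ℝ) (ξ α : ℕ → L → ℝ) (η β : ℕ → R → ℝ) (ψ : Set (L × R)),
    Measurable κ → Measurable κ' → (∀ l, 0 ≤ κ l ∧ κ l ≤ 1) → (∀ r, 0 ≤ κ' r ∧ κ' r ≤ 1) →
    (∀ c, Measurable (ξ c)) → (∀ c, Measurable (η c)) →
    (∀ c l, IsSign (ξ c l)) → (∀ c r, IsSign (η c r)) →
    (∀ c l, IsSign (α c l)) → (∀ c r, IsSign (β c r)) → MeasurableSet ψ →
    (∀ c l r, (l, r) ∈ ψ → α c l * β c r = chsh (ξ c l) (η c r)) →
    (∀ w : L → ℝ, Measurable w → (∀ l, |w l| ≤ 1) →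
      Tendsto (fun c => ∫ l, w l * κ l * ξ c l ∂μ) atTop (𝓝 0)) →
    (∀ w : R → ℝ, Measurable w → (∀ r, |w r| ≤ 1) →
      Tendsto (fun c => ∫ r, w r * κ' r * η c r ∂ν) atTop (𝓝 0)) →
    ∀ᵐ q ∂(μ.prod ν), q ∈ ψ → κ q.1 * κ' q.2 = 0

/-- The three-space lemma. -/
def P3 : Prop :=
  ∀ (L M R : Type u) [MeasurableSpace L] [MeasurableSpace M] [MeasurableSpace R]
    (μ : Measure L) (ρ : Measure M) (ν : Measure R)
    [IsProbabilityMeasure μ] [IsProbabilityMeasure ρ] [IsProbabilityMeasure ν]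
    (ξ : ℕ → L → ℝ) (η : ℕ → R → ℝ) (α : ℕ → L → M → ℝ) (β : ℕ → M → R → ℝ)
    (ψ : Set (L × M × R)),
    (∀ c, Measurable (ξ c)) → (∀ c, Measurable (η c)) →
    (∀ c l, IsSign (ξ c l)) → (∀ c r, IsSign (η c r)) →
    (∀ c l z, IsSign (α c l z)) → (∀ c z r, IsSign (β c z r)) → MeasurableSet ψ →
    (∀ c l z r, (l, z, r) ∈ ψ → α c l z * β c z r = chsh (ξ c l) (η c r)) →
    (∀ ζ : L × M × R → ℝ, Measurable ζ → (∀ q, |ζ q| ≤ 1) →
      Tendsto (fun c => ∫ q in ψ, ζ q * ξ c q.1 ∂(μ.prod (ρ.prod ν))) atTop (𝓝 0)) →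
    (∀ ζ : L × M × R → ℝ, Measurable ζ → (∀ q, |ζ q| ≤ 1) →
      Tendsto (fun c => ∫ q in ψ, ζ q * η c q.2.2 ∂(μ.prod (ρ.prod ν))) atTop (𝓝 0)) →
    (μ.prod (ρ.prod ν)) ψ = 0

/-- Gluing preserves the iid law. -/
def P4 : Prop :=
  ∀ (T : Type u) [MeasurableSpace T] (lam : Measure T) [IsProbabilityMeasure lam] (p q : ℤ),
    p ≤ q → ((iid lam).prod ((iid lam).prod (iid lam))).map (glue p q) = iid lam

/-- Shift invariance and the union bound. -/
def P5 : Prop :=
  ∀ (T : Type u) [MeasurableSpace T] (lam : Measure T) [IsProbabilityMeasure lam]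
    (B : Set (ℤ → T)) (n : ℕ), MeasurableSet B → (n : ℝ≥0∞) * iid lam B < 1 →
    0 < iid lam {y | ∀ a : ℕ, a < n → sh (a : ℤ) y ∉ B}

/-- Basic facts about houses. -/
def P6a : Prop := ∀ m : ℕ, 0 < m → IsProbabilityMeasure (house m)

/-- Houses satisfy the constraint. -/
def P6b : Prop := ∀ m : ℕ, 0 < m → ∀ᵐ h ∂(house m), h ∈ hs m

/-- The first and the last block sign have mean zero. -/
def P6d : Prop := ∀ m : ℕ, 0 < m →
  ∫ h, blk m 0 h ∂(house m) = 0 ∧ ∫ h, blk m 3 h ∂(house m) = 0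

/-- Houses are 1-dependent. -/
def P6c : Prop := ∀ m : ℕ, 0 < m → ∀ A B : Set ℕ, (∀ i ∈ A, ∀ j ∈ B, 1 < |(i : ℤ) - (j : ℤ)|) →
  IndepFun (rs (T := Bool) A) (rs (T := Bool) B) (house m)

/-- Products of independent pairs. -/
def P7 : Prop :=
  ∀ (ι H : Type) (mH : MeasurableSpace H) (μ : ι → Measure H) [∀ k, IsProbabilityMeasure (μ k)]
    (U V : ι → MeasurableSpace H), (∀ k, U k ≤ mH) → (∀ k, V k ≤ mH) →
    (∀ k, Indep (U k) (V k) (μ k)) →
    Indep (⨆ k, (U k).comap (fun ω : ι → H => ω k)) (⨆ k, (V k).comap (fun ω : ι → H => ω k))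
      (Measure.infinitePi μ)

/-- The process is stationary (given that houses are probability measures). -/
def P8a : Prop := P6a → muX.map (fun x i => x (i + 1)) = muX

/-- The process is 1-dependent. -/
def P8b : Prop := P6a → P6c → P7 → ∀ A B : Set ℤ, (∀ i ∈ A, ∀ j ∈ B, 1 < |i - j|) →
  IndepFun (rs (T := S0) A) (rs (T := S0) B) muX

/-- The constraint, read off the process. -/
def P9a : Prop := P6a → P6b → ∀ n c : ℕ, ∀ᵐ x ∂muX, rd n c x ∈ hs (n + 1)

/-- Orthogonality of the first and of the last block signs of different copies. -/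
def P9b : Prop := P6a → P6d → ∀ n c c' : ℕ, c ≠ c' →
  ∫ x, blk (n + 1) 0 (rd n c x) * blk (n + 1) 0 (rd n c' x) ∂muX = 0 ∧
  ∫ x, blk (n + 1) 3 (rd n c x) * blk (n + 1) 3 (rd n c' x) ∂muX = 0

/-- The main estimate: a factor map onto the process is not well approximated by block codes. -/
def P10 : Prop :=
  ∀ (T : Type u) [MeasurableSpace T] (lam : Measure T) [IsProbabilityMeasure lam] (r : ℕ)
    (f g : (ℤ → T) → S0), Measurable f → Measurable g →
    (∀ y y' : ℤ → T, (∀ i : ℤ, |i| ≤ (r : ℤ) → y i = y' i) → g y = g y') →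
    (iid lam).map (fun y a => f (sh a y)) = muX →
    1 ≤ ((8 * (r + 1) : ℕ) : ℝ≥0∞) * iid lam {y | f y ≠ g y}

end Pool.Agent.W759.FD
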