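import Pool.Agent.W759.FD.Core

namespace Pool.Agent.W759.FD

open MeasureTheory ProbabilityTheory Set Filter
open scoped ENNReal Topology

universe u

theorem sh_add {T : Type*} (a b : ℤ) (y : ℤ → T) : sh a (sh b y) = sh (a + b) y := by
  funext i
  simp only [sh]
  congr 1
  ring

theorem sh_zero {T : Type*} (y : ℤ → T) : sh 0 y = y := by
  funext i
  simp [sh]

theorem iid_map_sh {T : Type*} [MeasurableSpace T] (lam : Measure T) [IsProbabilityMeasure lam]
    (a : ℤ) : (iid lam).map (sh a) = iid lam := by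
  unfold iid
  exact Measure.map_infinitePi_infinitePi_of_inj (P := fun _ : ℤ => lam) (f := fun i => i + a)
    (fun i j h => by simpa using h)

/-- An almost everywhere equivariant map is given by its coordinate at `0`. -/
theorem ae_factor {T : Type*} {S : Type*} [MeasurableSpace T] (lam : Measure T)
    [IsProbabilityMeasure lam] (φ : (ℤ → T) → (ℤ → S))
    (heq : ∀ᵐ y ∂(iid lam), φ (sh 1 y) = sh 1 (φ y)) :
    ∀ᵐ y ∂(iid lam), (fun a => φ (sh a y) 0) = φ y := by
  have h1 : ∀ᵐ y ∂(iid lam), ∀ a : ℤ, φ (sh 1 (sh a y)) = sh 1 (φ (sh a y)) := by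
    rw [ae_all_iff]
    intro a
    have h := heq
    rw [← iid_map_sh lam a] at h
    exact ae_of_ae_map (measurable_sh a).aemeasurable h
  filter_upwards [h1] with y hy
  have hstep : ∀ a : ℤ, φ (sh (a + 1) y) = sh 1 (φ (sh a y)) := by
    intro a
    rw [← hy a, sh_add, add_comm]
  have hall : ∀ a : ℤ, φ (sh a y) = sh a (φ y) := by
    intro a
    induction a using Int.induction_on with
    | zero => rw [sh_zero, sh_zero]
    | succ k ih => rw [hstep, ih, sh_add, add_comm]
    | pred k ih =>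
      have h := hstep (-(k : ℤ) - 1)
      rw [sub_add_cancel, ih] at h
      have h2 : sh (-1) (sh (-(k : ℤ)) (φ y)) = sh (-1) (sh 1 (φ (sh (-(k : ℤ) - 1) y))) := by
        rw [h]
      rw [sh_add, sh_add] at h2
      have e1 : (-1 : ℤ) + 1 = 0 := by norm_num
      have e2 : (-1 : ℤ) + -(k : ℤ) = -(k : ℤ) - 1 := by ring
      rw [e1, sh_zero, e2] at h2
      exact h2.symm
  funext a
  rw [hall a]
  simp [sh]

/-- Divergence of the expectation from the tail bound. -/
theorem lintegral_top {Ω : Type*} [MeasurableSpace Ω] (P : Measure Ω)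
    (R : Ω → ℕ∞) (B : ℕ → Set Ω) (hB : ∀ r, MeasurableSet (B r))
    (hBR : ∀ r ω, ω ∈ B r → (r : ℕ∞) < R ω)
    (hP : ∀ r : ℕ, 1 ≤ ((8 * (r + 1) : ℕ) : ℝ≥0∞) * P (B r)) :
    ∫⁻ ω, (R ω : ℝ≥0∞) ∂P = ⊤ := by
  classical
  have h1 : ∀ ω, ∑' r, (B r).indicator (fun _ => (1 : ℝ≥0∞)) ω ≤ (R ω : ℝ≥0∞) := by
    intro ω
    rcases eq_or_ne (R ω) ⊤ with h | h
    · rw [h]; simp
    · obtain ⟨N, hN⟩ := ENat.ne_top_iff_exists.mp h
      rw [← hN]
      have hz : ∀ r ∉ Finset.range N, (B r).indicator (fun _ => (1 : ℝ≥0∞)) ω = 0 := by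
        intro r hr
        refine indicator_of_notMem (fun hm => hr ?_) _
        have := hBR r ω hm
        rw [← hN] at this
        rw [Finset.mem_range]
        exact_mod_cast this
      rw [tsum_eq_sum hz]
      calc ∑ r ∈ Finset.range N, (B r).indicator (fun _ => (1 : ℝ≥0∞)) ω
          ≤ ∑ r ∈ Finset.range N, (1 : ℝ≥0∞) := by
            refine Finset.sum_le_sum (fun r _ => ?_)
            exact indicator_le_self' (fun _ _ => zero_le) ω
        _ = N := by simp
        _ ≤ ((N : ℕ∞) : ℝ≥0∞) := by simp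
  have h2 : ∫⁻ ω, ∑' r, (B r).indicator (fun _ => (1 : ℝ≥0∞)) ω ∂P = ∑' r, P (B r) := by
    rw [lintegral_tsum (fun r => (measurable_const.indicator (hB r)).aemeasurable)]
    refine tsum_congr (fun r => ?_)
    rw [lintegral_indicator_const (hB r), one_mul]
  have h3 : ∑' r, P (B r) = ⊤ := by
    by_contra hne
    have hs : Summable (fun r => (P (B r)).toReal) := ENNReal.summable_toReal hne
    have hlow : ∀ r : ℕ, (1 : ℝ) / 8 * (1 / ((r + 1 : ℕ) : ℝ)) ≤ (P (B r)).toReal := by
      intro r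
      have hfin : P (B r) ≠ ⊤ := fun h => hne (ENNReal.tsum_eq_top_of_eq_top ⟨r, h⟩)
      have h := hP r
      have h' : (1 : ℝ) ≤ ((8 * (r + 1) : ℕ) : ℝ) * (P (B r)).toReal := by
        have := ENNReal.toReal_mono (ENNReal.mul_ne_top (ENNReal.natCast_ne_top _) hfin) h
        rw [ENNReal.toReal_mul, ENNReal.toReal_natCast, ENNReal.toReal_one] at this
        exact this
      have hr : (0 : ℝ) < ((r + 1 : ℕ) : ℝ) := by positivity
      rw [one_div, one_div, ← mul_inv, inv_le_iff_one_le_mul₀ (by positivity)]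
      push_cast at h' ⊢
      linarith
    have hs2 : Summable (fun r : ℕ => (1 : ℝ) / 8 * (1 / ((r + 1 : ℕ) : ℝ))) :=
      Summable.of_nonneg_of_le (fun r => by positivity) hlow hs
    have hs3 : Summable (fun r : ℕ => 1 / ((r + 1 : ℕ) : ℝ)) := by
      have := hs2.mul_left 8
      refine this.congr (fun r => ?_)
      ring
    have hs4 : Summable (fun r : ℕ => 1 / ((r : ℕ) : ℝ)) :=
      (summable_nat_add_iff (f := fun r : ℕ => 1 / ((r : ℕ) : ℝ)) 1).mp hs3
    exact Real.not_summable_one_div_natCast hs4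
  refine top_le_iff.mp ?_
  calc (⊤ : ℝ≥0∞) = ∫⁻ ω, ∑' r, (B r).indicator (fun _ => (1 : ℝ≥0∞)) ω ∂P := by rw [h2, h3]
    _ ≤ _ := lintegral_mono h1

end Pool.Agent.W759.FD
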